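import Pool.Agent.Q191.Omega.Main

set_option autoImplicit false

namespace Pool.Agent.Results.MP_d5f0e7_al.OmegaGenerators

open Q191.Omega

/-- The `ω`-values of all minimal generators `n + i` of the monoid generated by `n, …, n + k`. -/
theorem result (n k i : ℕ) (_hn : 2 ≤ n) (hk : 1 ≤ k) (hkn : k ≤ n - 1) (hi : i ≤ k) :
    OmegaProp (Gam n k) (n + i) (value n k i) ∧ omega (Gam n k) (n + i) = value n k i := by
  have h := main n k i hk hkn hi
  exact ⟨h.1, h.csInf_eq⟩

end Pool.Agent.Results.MP_d5f0e7_al.OmegaGenerators
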